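import Pool.Agent.Lib.MP_bf776f_nt.SU.Fix

/-! Function-field model: a period of the Carlitz exponential and one more point. -/

namespace Pool.Agent.CSU.OldPeriodPair

open Pool.Agent.CF

theorem result (F Ω : Type) [Field F] [Fintype F] [NormedField Ω] [IsUltrametricDist Ω]
    [CompleteSpace Ω] [Algebra F Ω] (T : Ω) (hT : 1 < ‖T‖) (lam u : Ω) (h0 : lam ≠ 0)
    (hl : ex (Fintype.card F) T lam = 0)
    (hu : (∀ r ∈ K F T, u ≠ r * lam) ∨ (u ≠ 0 ∧ ex (Fintype.card F) T u = u)) :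
    2 ≤ Algebra.trdeg (K F T)
      (IntermediateField.adjoin (K F T) {lam, u, ex (Fintype.card F) T u}) := by
  refine CSU.trd _ fun y h => CSU.thmA F Ω T lam u hT h0 hl (fun a b hb => ?_) y
    ⟨h _ (by simp), h _ (by simp), h _ (Or.inr (Or.inr rfl))⟩
  rcases hu with hu | hu
  · have hb' : Polynomial.aeval T b ≠ 0 := by
      rw [← norm_ne_zero_iff, CSU.norm_aeval CSU.norm_fin hT hb]
      positivity
    intro e
    refine hu _ ((IntermediateField.mem_adjoin_simple_iff F _).2 ⟨a, b, rfl⟩) ?_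
    rw [div_mul_eq_mul_div, ← e, mul_div_cancel_left₀ _ hb']
  · exact CSU.fix_ne hT hl hu.1 hu.2 a b hb

end Pool.Agent.CSU.OldPeriodPair
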